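import Pool.Agent.Leo3.Stmts

/-!
# Squad leo3, module HIL (helper59): Hilbert's Theorem 94 for a cyclic cubic extension without
ramified primes over a field with finitely many units
-/

set_option autoImplicit false

open NumberField IsDedekindDomain WithZero Module
open scoped nonZeroDivisors

namespace Pool.Agent.Leo3.H59

section units

variable {K L : Type} [Field K] [Field L]

/-- Units of the ring of integers, as elements of the field. -/
def UU (x : K) : Prop := x ≠ 0 ∧ IsIntegral ℤ x ∧ IsIntegral ℤ x⁻¹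

theorem UU.mul {x y : K} (hx : UU x) (hy : UU y) : UU (x * y) :=
  ⟨mul_ne_zero hx.1 hy.1, hx.2.1.mul hy.2.1, by rw [mul_inv]; exact hx.2.2.mul hy.2.2⟩

theorem UU.inv {x : K} (hx : UU x) : UU x⁻¹ :=
  ⟨inv_ne_zero hx.1, hx.2.2, by rw [inv_inv]; exact hx.2.1⟩

theorem UU.pow {x : K} (hx : UU x) (n : ℕ) : UU (x ^ n) :=
  ⟨pow_ne_zero n hx.1, hx.2.1.pow n, by rw [← inv_pow]; exact hx.2.2.pow n⟩

theorem UU.zpow {x : K} (hx : UU x) (n : ℤ) : UU (x ^ n) := by
  rcases n with n | n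
  · simpa using hx.pow n
  · rw [zpow_negSucc]
    exact (hx.pow _).inv

theorem UU.map {x : K} (hx : UU x) (f : K →+* L) : UU (f x) := by
  refine ⟨fun h => hx.1 ((map_eq_zero f).1 h), ?_, ?_⟩
  · exact hx.2.1.map (f : K →+* L).toIntAlgHom
  · rw [← map_inv₀]
    exact hx.2.2.map (f : K →+* L).toIntAlgHom

theorem UU.of_pow {x : K} {n : ℕ} (hn : 0 < n) (hx : UU (x ^ n)) : UU x := by
  refine ⟨?_, hx.2.1.of_pow hn, ?_⟩
  · rintro rfl
    exact hx.1 (zero_pow hn.ne')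
  · have := hx.2.2
    rw [← inv_pow] at this
    exact this.of_pow hn

theorem UU.exists_unit [NumberField K] {x : K} (hx : UU x) :
    ∃ u : (𝓞 K)ˣ, algebraMap (𝓞 K) K (u : 𝓞 K) = x := by
  refine ⟨⟨⟨x, hx.2.1⟩, ⟨x⁻¹, hx.2.2⟩, ?_, ?_⟩, rfl⟩
  · exact RingOfIntegers.ext (mul_inv_cancel₀ hx.1)
  · exact RingOfIntegers.ext (inv_mul_cancel₀ hx.1)

theorem UU_unit [NumberField K] (u : (𝓞 K)ˣ) : UU (algebraMap (𝓞 K) K (u : 𝓞 K)) := by
  have h : algebraMap (𝓞 K) K (u : 𝓞 K) * algebraMap (𝓞 K) K ((u⁻¹ : (𝓞 K)ˣ) : 𝓞 K) = 1 := by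
    rw [← map_mul, Units.mul_inv, map_one]
  have h0 : algebraMap (𝓞 K) K (u : 𝓞 K) ≠ 0 := left_ne_zero_of_mul_eq_one h
  refine ⟨h0, RingOfIntegers.isIntegral_coe _, ?_⟩
  rw [inv_eq_of_mul_eq_one_right h]
  exact RingOfIntegers.isIntegral_coe _

end units

section ideals

variable {K L : Type} [Field K] [NumberField K] [Field L] [NumberField L] [Algebra K L]

theorem val_unit (q : HeightOneSpectrum (𝓞 K)) {u : K} (hu : UU u) : q.valuation K u = 1 := by
  obtain ⟨v, rfl⟩ := hu.exists_unit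
  have h1 : q.valuation K (algebraMap (𝓞 K) K (v : 𝓞 K)) ≤ 1 := q.valuation_le_one _
  have h2 : q.valuation K (algebraMap (𝓞 K) K ((v⁻¹ : (𝓞 K)ˣ) : 𝓞 K)) ≤ 1 :=
    q.valuation_le_one _
  have h3 : q.valuation K (algebraMap (𝓞 K) K (v : 𝓞 K)) *
      q.valuation K (algebraMap (𝓞 K) K ((v⁻¹ : (𝓞 K)ˣ) : 𝓞 K)) = 1 := by
    rw [← map_mul, ← map_mul, Units.mul_inv, map_one, map_one]
  refine le_antisymm h1 ?_
  rw [← h3]
  exact mul_le_of_le_one_right' h2

/-- Ideals whose valuations are cubes. -/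
theorem cube_of_val (h3 : ¬ 3 ∣ Fintype.card (ClassGroup (𝓞 K))) (z : K) (hz : z ≠ 0)
    (h : ∀ q : HeightOneSpectrum (𝓞 K), ∃ x : ℤᵐ⁰, q.valuation K z = x ^ 3) :
    ∃ x v : K, x ≠ 0 ∧ UU v ∧ z = x ^ 3 * v := by
  obtain ⟨a, b, hb, hab⟩ := IsFractionRing.div_surjective (A := 𝓞 K) z
  have hb0 : b ≠ 0 := nonZeroDivisors.ne_zero hb
  have hbK : algebraMap (𝓞 K) K b ≠ 0 := by simpa using hb0
  have ha0 : a ≠ 0 := by
    rintro rfl
    rw [map_zero, zero_div] at hab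
    exact hz hab.symm
  obtain ⟨α, hα⟩ : ∃ α : 𝓞 K, α = a * b ^ 2 := ⟨_, rfl⟩
  have hα0 : α ≠ 0 := by rw [hα]; exact mul_ne_zero ha0 (pow_ne_zero 2 hb0)
  have hαz : algebraMap (𝓞 K) K α = z * b ^ 3 := by
    rw [hα, ← hab, map_mul, map_pow]
    field_simp
  have hI0 : Ideal.span {α} ≠ ⊥ := by simpa using hα0
  have hcount : ∀ P ∈ UniqueFactorizationMonoid.normalizedFactors (Ideal.span {α}),
      3 ∣ Multiset.count P (UniqueFactorizationMonoid.normalizedFactors (Ideal.span {α})) := by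
    intro P hP
    have hPp : Prime P := UniqueFactorizationMonoid.prime_of_normalized_factor P hP
    let q : HeightOneSpectrum (𝓞 K) := ⟨P, Ideal.isPrime_of_prime hPp, hPp.ne_zero⟩
    obtain ⟨x, hx⟩ := h q
    have h1 : q.valuation K (algebraMap (𝓞 K) K α) = (x * q.valuation K (algebraMap (𝓞 K) K b)) ^ 3 := by
      rw [hαz, map_mul, hx, map_pow, mul_pow]
    rw [HeightOneSpectrum.valuation_of_algebraMap, q.intValuation_eq_exp_neg_multiplicity hα0,
      UniqueFactorizationMonoid.multiplicity_eq_count_normalizedFactors hPp.irreducible hI0,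
      normalize_eq] at h1
    obtain ⟨y, hy⟩ : ∃ y : ℤᵐ⁰, y = x * q.valuation K (algebraMap (𝓞 K) K b) := ⟨_, rfl⟩
    rw [← hy] at h1
    have hy0 : y ≠ 0 := by
      rintro rfl
      rw [zero_pow (by norm_num)] at h1
      exact exp_ne_zero h1
    rw [← exp_log hy0, ← exp_nsmul, exp_inj] at h1
    have h2 : (3 : ℤ) ∣ (Multiset.count P
        (UniqueFactorizationMonoid.normalizedFactors (Ideal.span {α})) : ℤ) := by
      refine ⟨-log y, ?_⟩
      simp only [nsmul_eq_mul] at h1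
      push_cast at h1
      linarith
    exact_mod_cast h2
  obtain ⟨s, hs⟩ := Multiset.exists_smul_of_dvd_count _ hcount
  have hprod : (s.prod) ^ 3 = Ideal.span {α} := by
    rw [← Multiset.prod_nsmul, ← hs]
    exact Ideal.prod_normalizedFactors_eq_self hI0
  have hpr : (s.prod).IsPrincipal := by
    refine Ideal.IsPrincipal.of_isPrincipal_pow_of_coprime (n := 3) ?_ ?_
    · exact (Nat.Prime.coprime_iff_not_dvd Nat.prime_three).2 h3
    · rw [hprod]
      exact ⟨α, rfl⟩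
  obtain ⟨x, hx⟩ := hpr
  have hx' : s.prod = Ideal.span {x} := hx
  rw [hx', Ideal.span_singleton_pow, Ideal.span_singleton_eq_span_singleton] at hprod
  obtain ⟨u, hu⟩ := hprod
  have hx0 : x ≠ 0 := by
    rintro rfl
    rw [zero_pow (by norm_num), zero_mul] at hu
    exact hα0 hu.symm
  refine ⟨algebraMap (𝓞 K) K x / algebraMap (𝓞 K) K b, algebraMap (𝓞 K) K u,
    div_ne_zero (by simpa using hx0) hbK, UU_unit u, ?_⟩
  have h5 : algebraMap (𝓞 K) K α = algebraMap (𝓞 K) K x ^ 3 * algebraMap (𝓞 K) K u := by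
    rw [← hu, map_mul, map_pow]
  rw [div_pow]
  field_simp
  rw [← hαz, h5]

/-- The valuations of an element of `K` which is a cube up to units in `L`. -/
theorem val_cube (hun : ∀ (P : Ideal (𝓞 L)) [P.IsPrime], P ≠ ⊥ → Algebra.IsUnramifiedAt (𝓞 K) P)
    (z : K) (y u : L) (hu : UU u) (h : algebraMap K L z = y ^ 3 * u)
    (q : HeightOneSpectrum (𝓞 K)) : ∃ x : ℤᵐ⁰, q.valuation K z = x ^ 3 := by
  have hm : q.asIdeal.IsMaximal := q.isPrime.isMaximal q.ne_bot
  obtain ⟨Q, hQ, hover⟩ := Ideal.exists_maximal_ideal_liesOver_of_isIntegral (S := 𝓞 L) q.asIdeal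
  have hQ0 : Q ≠ ⊥ := Ideal.ne_bot_of_liesOver_of_ne_bot q.ne_bot Q
  let P : HeightOneSpectrum (𝓞 L) := ⟨Q, hQ.isPrime, hQ0⟩
  have : P.asIdeal.LiesOver q.asIdeal := hover
  have hP : P.asIdeal.IsPrime := hQ.isPrime
  have hunr := hun P.asIdeal hQ0
  have h1 := HeightOneSpectrum.valuation_liesOver L q P z
  rw [Ideal.ramificationIdx'_eq_ramificationIdx _ _ q.ne_bot,
    Ideal.ramificationIdx_eq_one_of_isUnramifiedAt, pow_one, h, map_mul, val_unit P hu, mul_one,
    map_pow] at h1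
  exact ⟨_, h1⟩

end ideals

/-- If all units are cubes then the rank is zero. -/
theorem rank_zero {L : Type} [Field L] [NumberField L]
    (h : ∀ x : L, UU x → ∃ y : L, UU y ∧ y ^ 3 = x) : Units.rank L = 0 := by
  classical
  by_contra h0
  have i : Fin (Units.rank L) := ⟨0, Nat.pos_of_ne_zero h0⟩
  obtain ⟨y, hy, hyx⟩ := h _ (UU_unit (Units.fundSystem L i))
  obtain ⟨g, hg⟩ := hy.exists_unit
  have e1 : Units.fundSystem L i = g ^ 3 := by
    refine Units.ext (RingOfIntegers.ext ?_)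
    show algebraMap (𝓞 L) L (Units.fundSystem L i : 𝓞 L) = algebraMap (𝓞 L) L ((g ^ 3 : (𝓞 L)ˣ) : 𝓞 L)
    rw [← hyx, ← hg, Units.val_pow_eq_pow_val, map_pow]
  obtain ⟨⟨ζ, f⟩, hf, _⟩ := Units.exist_unique_eq_mul_prod L g
  obtain ⟨_, _, huniq⟩ := Units.exist_unique_eq_mul_prod L (Units.fundSystem L i)
  have u1 := huniq (1, Pi.single i 1) (by
    simp only [OneMemClass.coe_one, one_mul]
    rw [Finset.prod_eq_single i]
    · simp
    · intro j _ hj
      rw [Pi.single_eq_of_ne hj, zpow_zero]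
    · intro hi; exact absurd (Finset.mem_univ i) hi)
  have u2 := huniq (ζ ^ 3, fun j => 3 * f j) (by
    simp only at hf ⊢
    rw [e1, hf, mul_pow, ← Finset.prod_pow]
    simp only [SubmonoidClass.coe_pow]
    congr 1
    refine Finset.prod_congr rfl fun j _ => ?_
    rw [mul_comm, zpow_mul]
    rfl)
  have u3 := u1.trans u2.symm
  have u4 := congrFun (Prod.ext_iff.1 u3).2 i
  simp only [Pi.single_eq_same] at u4
  omega

theorem UU.of_map {K L : Type} [Field K] [Field L] [Algebra K L] {x : K}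
    (h : UU (algebraMap K L x)) : UU x := by
  refine ⟨fun h0 => h.1 (by rw [h0, map_zero]), ?_, ?_⟩
  · exact (isIntegral_algebraMap_iff (algebraMap K L).injective).1 h.2.1
  · have h2 := h.2.2
    rw [← map_inv₀] at h2
    exact (isIntegral_algebraMap_iff (algebraMap K L).injective).1 h2

/-- The torsion of the unit group of a field with finitely many units. -/
theorem exists_w {K : Type} [Field K] [NumberField K] (hrank : Units.rank K = 0)
    (hmu : ∀ x : K, x ^ 3 = 1 → x = 1) :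
    ∃ w : ℕ, Nat.Coprime w 3 ∧ ∀ x : K, UU x → x ^ w = 1 := by
  classical
  refine ⟨Nat.card (Units.torsion K), ?_, ?_⟩
  · rw [Nat.coprime_comm, Nat.Prime.coprime_iff_not_dvd Nat.prime_three]
    intro h
    have : Fact (Nat.Prime 3) := ⟨Nat.prime_three⟩
    obtain ⟨ζ, hζ⟩ := exists_prime_orderOf_dvd_card' 3 h
    have h1 : ζ ^ 3 = 1 := by rw [← hζ]; exact pow_orderOf_eq_one ζ
    have h2 : algebraMap (𝓞 K) K ((ζ : (𝓞 K)ˣ) : 𝓞 K) ^ 3 = 1 := by
      rw [← map_pow, ← Units.val_pow_eq_pow_val, ← SubmonoidClass.coe_pow, h1]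
      simp
    have h3 := hmu _ h2
    have h4 : ζ = 1 := by
      refine Subtype.ext (Units.ext (RingOfIntegers.ext ?_))
      show algebraMap (𝓞 K) K ((ζ : (𝓞 K)ˣ) : 𝓞 K) = algebraMap (𝓞 K) K 1
      rw [h3, map_one]
    rw [h4, orderOf_one] at hζ
    norm_num at hζ
  · intro x hx
    obtain ⟨u, hu⟩ := hx.exists_unit
    obtain ⟨⟨ζ, f⟩, hf, _⟩ := Units.exist_unique_eq_mul_prod K u
    have : IsEmpty (Fin (Units.rank K)) := by rw [hrank]; infer_instance
    simp only [Finset.univ_eq_empty, Finset.prod_empty, mul_one] at hf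
    have h1 : ζ ^ Nat.card (Units.torsion K) = 1 := pow_card_eq_one'
    have h2 : u ^ Nat.card (Units.torsion K) = 1 := by
      rw [hf, ← SubmonoidClass.coe_pow, h1]
      rfl
    rw [← hu, ← map_pow, ← Units.val_pow_eq_pow_val, h2]
    simp

/-- The norm of a cyclic cubic extension. -/
theorem norm_three {K L : Type} [Field K] [Field L] [Algebra K L] [FiniteDimensional K L]
    [IsGalois K L] (σ : L ≃ₐ[K] L) (hσ : ∀ x, x ∈ Subgroup.zpowers σ) (ho : orderOf σ = 3)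
    (x : L) : algebraMap K L (Algebra.norm K x) = x * σ x * σ (σ x) := by
  classical
  rw [Algebra.norm_eq_prod_automorphisms, ← IsCyclic.image_range_orderOf hσ, ho,
    Finset.prod_image]
  · simp only [Finset.prod_range_succ, Finset.prod_range_zero, one_mul, pow_zero, pow_one,
      AlgEquiv.one_apply, pow_two, AlgEquiv.mul_apply]
  · intro a ha b hb hab
    rw [Finset.coe_range, Set.mem_Iio, ← ho] at ha hb
    exact pow_injOn_Iio_orderOf ha hb hab

theorem claim {K L : Type} [Field K] [NumberField K] [Field L] [NumberField L] [Algebra K L]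
    [IsGalois K L] (σ : L ≃ₐ[K] L) (hσ : ∀ x, x ∈ Subgroup.zpowers σ) (ho : orderOf σ = 3)
    (hun : ∀ (P : Ideal (𝓞 L)) [P.IsPrime], P ≠ ⊥ → Algebra.IsUnramifiedAt (𝓞 K) P)
    (h3 : ¬ 3 ∣ Fintype.card (ClassGroup (𝓞 K))) (w : ℕ) (hw : ∀ x : K, UU x → x ^ w = 1)
    (η : L) (hη : UU η) : ∃ e : L, UU e ∧ η ^ (w ^ 2) = e / σ e := by
  have hs : ∀ x : L, UU x → UU (σ x) := fun x hx => hx.map (σ : L →+* L)
  have hcyc : IsCyclic (L ≃ₐ[K] L) := ⟨σ, hσ⟩
  have hn0 : UU (Algebra.norm K η) := by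
    refine UU.of_map (L := L) ?_
    rw [norm_three σ hσ ho]
    exact (hη.mul (hs _ hη)).mul (hs _ (hs _ hη))
  have hn1 : Algebra.norm K (η ^ w) = 1 := by rw [map_pow, hw _ hn0]
  obtain ⟨y, hy⟩ := groupCohomology.exists_div_of_norm_eq_one hσ hn1
  have hy0 : (y : L) ≠ 0 := y.ne_zero
  have hsy0 : σ (y : L) ≠ 0 := by simp
  obtain ⟨η1, hη1⟩ : ∃ η1 : L, η1 = η ^ w := ⟨_, rfl⟩
  rw [← hη1] at hy
  have hU1 : UU η1 := by rw [hη1]; exact hη.pow w
  have hU2 := hs _ hU1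
  have e1 : σ (y : L) = y / η1 := by
    rw [← hy]
    field_simp
  have e2 : σ (σ (y : L)) = y / (η1 * σ η1) := by
    rw [e1, map_div₀, e1]
    field_simp
  have hz : algebraMap K L (Algebra.norm K (y : L)) = (y : L) ^ 3 * (η1 ^ 2 * σ η1)⁻¹ := by
    rw [norm_three σ hσ ho, e2, e1]
    have := hU1.1
    have := hU2.1
    field_simp
  have hz0 : Algebra.norm K (y : L) ≠ 0 := by
    intro h0
    rw [h0, map_zero] at hz
    exact mul_ne_zero (pow_ne_zero 3 hy0) ((hU1.pow 2).mul hU2).inv.1 hz.symm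
  obtain ⟨x, v, hx0, hv, hxv⟩ := cube_of_val h3 _ hz0
    (val_cube hun _ y _ ((hU1.pow 2).mul hU2).inv hz)
  have hX0 : algebraMap K L x ≠ 0 := by simpa using hx0
  obtain ⟨e, he⟩ : ∃ e : L, e = (y : L) ^ w / algebraMap K L x ^ w := ⟨_, rfl⟩
  have h4 : algebraMap K L x ^ (3 * w) = (y : L) ^ (3 * w) * ((η1 ^ 2 * σ η1)⁻¹) ^ w := by
    have h5 : algebraMap K L (Algebra.norm K (y : L)) ^ w = algebraMap K L x ^ (3 * w) := by
      rw [hxv, map_mul, mul_pow, ← map_pow, ← map_pow, ← map_pow, ← pow_mul, hw v hv, map_one,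
        mul_one]
    rw [← h5, hz, mul_pow, ← pow_mul]
  have h6 : e ^ 3 = (((η1 ^ 2 * σ η1)⁻¹) ^ w)⁻¹ := by
    rw [he, div_pow, ← pow_mul, ← pow_mul, mul_comm w 3, h4]
    have := (((hU1.pow 2).mul hU2).inv.pow w).1
    have := pow_ne_zero (3 * w) hy0
    field_simp
  have hUe : UU e := by
    refine UU.of_pow (n := 3) (by norm_num) ?_
    rw [h6]
    exact (((hU1.pow 2).mul hU2).inv.pow w).inv
  refine ⟨e, hUe, ?_⟩
  rw [sq, pow_mul, ← hη1, ← hy, he, map_div₀, map_pow, map_pow, σ.commutes, div_pow]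
  have := pow_ne_zero w hX0
  have := pow_ne_zero w hsy0
  field_simp

theorem hil : HilStmt := by
  classical
  intro K L _ _ _ _ _ _ hdeg hun hrank hmu hL
  by_contra h3
  obtain ⟨w, hw3, hw⟩ := exists_w hrank hmu
  -- the Galois group
  have hcard : Nat.card (L ≃ₐ[K] L) = 3 := by rw [IsGalois.card_aut_eq_finrank, hdeg]
  have : Fact (Nat.Prime 3) := ⟨Nat.prime_three⟩
  have hcyc : IsCyclic (L ≃ₐ[K] L) := isCyclic_of_prime_card hcard
  obtain ⟨σ, hσ⟩ := hcyc.exists_generator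
  have ho : orderOf σ = 3 := by rw [orderOf_eq_card_of_forall_mem_zpowers hσ, hcard]
  have hs : ∀ x : L, UU x → UU (σ x) := fun x hx => hx.map (σ : L →+* L)
  have key : ∀ x : L, UU x → ∃ y : L, UU y ∧ y ^ 3 = x := by
    intro η hη
    obtain ⟨e, he, h1⟩ := claim σ hσ ho hun h3 w hw η hη
    obtain ⟨f, hf, h2⟩ := claim σ hσ ho hun h3 w hw e he
    have hN : (f * σ f * σ (σ f)) ^ w = 1 := by
      rw [← norm_three σ hσ ho, ← map_pow, hw, map_one]
      refine UU.of_map (L := L) ?_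
      rw [norm_three σ hσ ho]
      exact (hf.mul (hs _ hf)).mul (hs _ (hs _ hf))
    have f0 := hf.1
    have f1 := (hs _ hf).1
    have f2 := (hs _ (hs _ hf)).1
    have h5 : η ^ (w ^ 5) = ((σ f ^ w)⁻¹) ^ 3 := by
      have h6 : η ^ (w ^ 5) = ((f / σ f) / (σ f / σ (σ f))) ^ w := by
        have e5 : w ^ 5 = w ^ 2 * w ^ 2 * w := by ring
        rw [e5, pow_mul, pow_mul, h1, div_pow, ← map_pow, h2, map_div₀]
      have h7 : (f / σ f) / (σ f / σ (σ f)) = (f * σ f * σ (σ f)) * ((σ f)⁻¹) ^ 3 := by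
        field_simp
      rw [h6, h7, mul_pow, hN, one_mul, ← inv_pow, ← pow_mul, ← pow_mul, mul_comm]
    have hco : IsCoprime ((w ^ 5 : ℕ) : ℤ) ((3 : ℕ) : ℤ) :=
      Nat.isCoprime_iff_coprime.2 (Nat.Coprime.pow_left 5 hw3)
    obtain ⟨a, b, hab⟩ := hco
    obtain ⟨g, hg⟩ : ∃ g : L, g = (σ f ^ w)⁻¹ := ⟨_, rfl⟩
    have hUg : UU g := by rw [hg]; exact ((hs _ hf).pow w).inv
    rw [← hg] at h5
    refine ⟨g ^ a * η ^ b, (hUg.zpow a).mul (hη.zpow b), ?_⟩
    calc (g ^ a * η ^ b) ^ 3 = (g ^ 3) ^ a * η ^ (b * 3) := by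
          rw [mul_pow, ← zpow_natCast (η ^ b) 3, ← zpow_mul, ← zpow_natCast (g ^ a) 3, ← zpow_mul,
            ← zpow_natCast g 3, ← zpow_mul, mul_comm a]
          norm_cast
      _ = η ^ (a * ((w ^ 5 : ℕ) : ℤ) + b * 3) := by
          rw [← h5, zpow_add₀ hη.1, ← zpow_natCast η (w ^ 5), ← zpow_mul, mul_comm a]
      _ = η := by
          have : a * ((w ^ 5 : ℕ) : ℤ) + b * 3 = 1 := by
            rw [← hab]; norm_num
          rw [this, zpow_one]
  have := rank_zero key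
  omega

end Pool.Agent.Leo3.H59
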